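import Mathlib

set_option autoImplicit false

/-!
# Adjoining an absorbing element preserves the finite basis property of semirings

Let `S` be a semiring and let `S^∞` be `S` with an element adjoined that is absorbing for both
operations. We show: if `S` is finitely based, then so is `S^∞`.

Idea. The identities of `S^∞` are the regular identities of `S`. If `p ≈ q` is an irregular identity
of `S`, then, replacing a variable `y` that occurs on one side only by `y + z` and expanding, one
gets a term `ρ`, in which the new variable `z` occurs, with `p ≈ p + ρ(z)` and `q ≈ q + ρ(z)`.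
The summands `ρ(z)` can store the variables that get lost when `p` is replaced by `q`. Finitely
many regular identities suffice to handle these summands.
-/

namespace Pool.Agent.Results.MP_cd9307_al.AbsorbingElement

universe u v w

/-- Terms in the operation symbols `+`, `·` over the variables `V`. -/
inductive Tm (V : Type v) : Type v
  | var : V → Tm V
  | add : Tm V → Tm V → Tm V
  | mul : Tm V → Tm V → Tm V

instance (V : Type v) : Add (Tm V) := ⟨Tm.add⟩
instance (V : Type v) : Mul (Tm V) := ⟨Tm.mul⟩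

namespace Tm

variable {V : Type v} {W : Type w} {A : Type u}

/-- The value of a term under an assignment of the variables in an algebra of type `(+, ·)`. -/
def eval [Add A] [Mul A] (e : V → A) : Tm V → A
  | var x => e x
  | add s t => s.eval e + t.eval e
  | mul s t => s.eval e * t.eval e

/-- the list of the variables of a term -/
def vars : Tm V → List V
  | var x => [x]
  | add s t => s.vars ++ t.vars
  | mul s t => s.vars ++ t.vars

end Tm

/-- An identity `s ≈ t` in the variables `x_0, x_1, …`. -/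
abbrev Idy : Type := Tm ℕ × Tm ℕ

/-- The algebra `A` of type `(+, ·)` satisfies the identity `i`. -/
def Satisfies (A : Type u) [Add A] [Mul A] (i : Idy) : Prop :=
  ∀ e : ℕ → A, i.1.eval e = i.2.eval e

/-- `S` is a semiring: `+` is a commutative semigroup operation, `·` is a semigroup operation, and
both distributive laws hold. -/
structure IsSemiring (S : Type u) [Add S] [Mul S] : Prop where
  add_assoc : ∀ a b c : S, a + b + c = a + (b + c)
  add_comm : ∀ a b : S, a + b = b + a
  mul_assoc : ∀ a b c : S, a * b * c = a * (b * c)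
  left_distrib : ∀ a b c : S, a * (b + c) = a * b + a * c
  right_distrib : ∀ a b c : S, (a + b) * c = a * c + b * c

/-- `S` is finitely based: the variety generated by `S`, that is, the class of all algebras of type
`(+, ·)` that satisfy all identities of `S`, is defined by some finite set of identities. -/
def FinitelyBased (S : Type u) [Add S] [Mul S] : Prop :=
  ∃ E : Set Idy, E.Finite ∧ ∀ (A : Type u) [Add A] [Mul A],
    (∀ i ∈ E, Satisfies A i) ↔ ∀ i : Idy, Satisfies S i → Satisfies A i

/-- `S^∞`: the algebra `S` with an additional element `∞`. -/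
inductive WithAbsorbing (S : Type u) : Type u
  | fin : S → WithAbsorbing S
  | infty : WithAbsorbing S

namespace WithAbsorbing

variable {S : Type u}

/-- the addition of `S^∞`: it extends the one of `S`, and `∞` is absorbing -/
instance [Add S] : Add (WithAbsorbing S) where
  add
    | fin a, fin b => fin (a + b)
    | _, _ => infty

/-- the multiplication of `S^∞`: it extends the one of `S`, and `∞` is absorbing -/
instance [Mul S] : Mul (WithAbsorbing S) where
  mul
    | fin a, fin b => fin (a * b)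
    | _, _ => infty

@[simp] lemma fin_add_fin [Add S] (a b : S) : fin a + fin b = fin (a + b) := rfl
@[simp] lemma fin_mul_fin [Mul S] (a b : S) : fin a * fin b = fin (a * b) := rfl
@[simp] lemma infty_add [Add S] (a : WithAbsorbing S) : infty + a = infty := by cases a <;> rfl
@[simp] lemma add_infty [Add S] (a : WithAbsorbing S) : a + infty = infty := by cases a <;> rfl
@[simp] lemma infty_mul [Mul S] (a : WithAbsorbing S) : infty * a = infty := by cases a <;> rfl
@[simp] lemma mul_infty [Mul S] (a : WithAbsorbing S) : a * infty = infty := by cases a <;> rfl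

end WithAbsorbing

namespace Tm

variable {V : Type v} {W : Type w} {A : Type u}

@[simp] lemma eval_var [Add A] [Mul A] (e : V → A) (x : V) : (var x).eval e = e x := rfl
@[simp] lemma eval_add [Add A] [Mul A] (e : V → A) (s t : Tm V) :
    (s + t).eval e = s.eval e + t.eval e := rfl
@[simp] lemma eval_mul [Add A] [Mul A] (e : V → A) (s t : Tm V) :
    (s * t).eval e = s.eval e * t.eval e := rfl
@[simp] lemma vars_var (x : V) : (var x).vars = [x] := rfl
@[simp] lemma vars_add (s t : Tm V) : (s + t).vars = s.vars ++ t.vars := rfl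
@[simp] lemma vars_mul (s t : Tm V) : (s * t).vars = s.vars ++ t.vars := rfl

/-- induction principle in terms of `+`, `*` -/
theorem ind {motive : Tm V → Prop} (var : ∀ x, motive (var x))
    (add : ∀ s t, motive s → motive t → motive (s + t))
    (mul : ∀ s t, motive s → motive t → motive (s * t)) (t : Tm V) : motive t := by
  induction t with
  | var x => exact var x
  | add s t h1 h2 => exact add s t h1 h2
  | mul s t h1 h2 => exact mul s t h1 h2

lemma eval_eval [Add A] [Mul A] (e : W → A) (σ : V → Tm W) (t : Tm V) :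
    (t.eval σ).eval e = t.eval (fun x => (σ x).eval e) := by
  induction t using ind with
  | var x => rfl
  | add s t h1 h2 => simp [h1, h2]
  | mul s t h1 h2 => simp [h1, h2]

lemma eval_congr [Add A] [Mul A] {e e' : V → A} (t : Tm V) (h : ∀ x ∈ t.vars, e x = e' x) :
    t.eval e = t.eval e' := by
  induction t using ind with
  | var x => exact h x (by simp)
  | add s t h1 h2 =>
    rw [eval_add, eval_add, h1 (fun x hx => h x (by simp [hx])),
      h2 (fun x hx => h x (by simp [hx]))]
  | mul s t h1 h2 =>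
    rw [eval_mul, eval_mul, h1 (fun x hx => h x (by simp [hx])),
      h2 (fun x hx => h x (by simp [hx]))]

lemma mem_vars_eval (σ : V → Tm W) (t : Tm V) (y : W) :
    y ∈ (t.eval σ).vars ↔ ∃ x ∈ t.vars, y ∈ (σ x).vars := by
  induction t using ind with
  | var x => simp
  | add s t h1 h2 =>
    simp only [eval_add, vars_add, List.mem_append, h1, h2]
    constructor
    · rintro (⟨x, hx, h⟩ | ⟨x, hx, h⟩)
      · exact ⟨x, Or.inl hx, h⟩
      · exact ⟨x, Or.inr hx, h⟩
    · rintro ⟨x, hx | hx, h⟩
      · exact Or.inl ⟨x, hx, h⟩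
      · exact Or.inr ⟨x, hx, h⟩
  | mul s t h1 h2 =>
    simp only [eval_mul, vars_mul, List.mem_append, h1, h2]
    constructor
    · rintro (⟨x, hx, h⟩ | ⟨x, hx, h⟩)
      · exact ⟨x, Or.inl hx, h⟩
      · exact ⟨x, Or.inr hx, h⟩
    · rintro ⟨x, hx | hx, h⟩
      · exact Or.inl ⟨x, hx, h⟩
      · exact Or.inr ⟨x, hx, h⟩

lemma vars_ne_nil (t : Tm V) : ∃ x, x ∈ t.vars := by
  induction t using ind with
  | var x => exact ⟨x, by simp⟩
  | add s t h1 h2 => obtain ⟨x, hx⟩ := h1; exact ⟨x, by simp [hx]⟩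
  | mul s t h1 h2 => obtain ⟨x, hx⟩ := h1; exact ⟨x, by simp [hx]⟩

end Tm

open Tm

/-- an identity is regular -/
def Reg (i : Idy) : Prop := ∀ x, x ∈ i.1.vars ↔ x ∈ i.2.vars

/-! ### Identities of `S^∞` -/

section Inf

variable {S : Type u} [Add S] [Mul S]

lemma eval_fin {V : Type v} (e : V → S) (t : Tm V) :
    t.eval (fun x => WithAbsorbing.fin (e x)) = WithAbsorbing.fin (t.eval e) := by
  induction t using Tm.ind with
  | var x => rfl
  | add s t h1 h2 => simp [h1, h2]
  | mul s t h1 h2 => simp [h1, h2]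

lemma eval_infty {V : Type v} (e : V → WithAbsorbing S) (t : Tm V) (x : V) (hx : x ∈ t.vars)
    (h : e x = WithAbsorbing.infty) : t.eval e = WithAbsorbing.infty := by
  induction t using Tm.ind with
  | var y => simp only [vars_var, List.mem_singleton] at hx; subst hx; exact h
  | add s t h1 h2 =>
    simp only [vars_add, List.mem_append] at hx
    rcases hx with hx | hx
    · simp [h1 hx]
    · simp [h2 hx]
  | mul s t h1 h2 =>
    simp only [vars_mul, List.mem_append] at hx
    rcases hx with hx | hx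
    · simp [h1 hx]
    · simp [h2 hx]

/-- regular identities of `S` hold in `S^∞` -/
lemma satisfies_inf_of_reg {i : Idy} (hr : Reg i) (h : Satisfies S i) :
    Satisfies (WithAbsorbing S) i := by
  intro e
  by_cases hinf : ∃ x ∈ i.1.vars, e x = WithAbsorbing.infty
  · obtain ⟨x, hx, he⟩ := hinf
    rw [eval_infty e _ x hx he, eval_infty e _ x ((hr x).1 hx) he]
  · push Not at hinf
    obtain ⟨x0, hx0⟩ := i.1.vars_ne_nil
    have hfin : ∀ x, ∃ s : S, x ∈ i.1.vars → e x = WithAbsorbing.fin s := by
      intro x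
      by_cases hx : x ∈ i.1.vars
      · rcases hex : e x with s | _
        · exact ⟨s, fun _ => rfl⟩
        · exact absurd hex (hinf x hx)
      · rcases hex : e x0 with s | _
        · exact ⟨s, fun h => absurd h hx⟩
        · exact absurd hex (hinf x0 hx0)
    choose f hf using hfin
    have h1 : i.1.eval e = i.1.eval (fun x => WithAbsorbing.fin (f x)) :=
      eval_congr _ (fun x hx => hf x hx)
    have h2 : i.2.eval e = i.2.eval (fun x => WithAbsorbing.fin (f x)) :=
      eval_congr _ (fun x hx => hf x ((hr x).2 hx))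
    rw [h1, h2, eval_fin, eval_fin, h f]

/-- identities of `S^∞` hold in `S` -/
lemma satisfies_of_inf {i : Idy} (h : Satisfies (WithAbsorbing S) i) : Satisfies S i := by
  intro e
  have := h (fun x => WithAbsorbing.fin (e x))
  rw [eval_fin, eval_fin] at this
  exact WithAbsorbing.fin.inj this

/-- identities of `S^∞` are regular -/
lemma reg_of_inf [Nonempty S] {i : Idy} (h : Satisfies (WithAbsorbing S) i) : Reg i := by
  classical
  have key : ∀ s t : Tm ℕ, (∀ e : ℕ → WithAbsorbing S, s.eval e = t.eval e) →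
      ∀ x ∈ s.vars, x ∈ t.vars := by
    intro s t hst x hx
    by_contra hn
    obtain ⟨a⟩ := ‹Nonempty S›
    have := hst (fun y => if y = x then WithAbsorbing.infty else WithAbsorbing.fin a)
    rw [eval_infty _ s x hx (by simp)] at this
    rw [eval_congr (e' := fun _ => WithAbsorbing.fin a) t] at this
    · rw [eval_fin (fun _ => a)] at this
      cases this
    · intro y hy
      have : y ≠ x := fun h => hn (h ▸ hy)
      simp [this]
  intro x
  exact ⟨key _ _ h x, key _ _ (fun e => (h e).symm) x⟩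

end Inf

/-! ### The expansion lemma -/

/-- the assignment `none ↦ z`, `some n ↦ x n` -/
def oas {A : Type u} (z : A) (x : ℕ → A) : Option ℕ → A
  | none => z
  | some n => x n

@[simp] lemma oas_none {A : Type u} (z : A) (x : ℕ → A) : oas z x none = z := rfl
@[simp] lemma oas_some {A : Type u} (z : A) (x : ℕ → A) (n : ℕ) : oas z x (some n) = x n := rfl

/-- expansion of `t (y + z)` -/
lemma expand (t : Tm ℕ) (y : ℕ) (hy : y ∈ t.vars) : ∃ r : Tm (Option ℕ), none ∈ r.vars ∧
    (∀ n, some n ∈ r.vars → n ∈ t.vars) ∧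
    ∀ (A : Type u) [Add A] [Mul A], IsSemiring A → ∀ (x : ℕ → A) (z : A),
      t.eval (Function.update x y (x y + z)) = t.eval x + r.eval (oas z x) := by
  classical
  induction t using Tm.ind with
  | var n =>
    simp only [vars_var, List.mem_singleton] at hy
    subst hy
    exact ⟨var none, by simp, by simp, fun A _ _ _ x z => by simp⟩
  | add s t h1 h2 =>
    by_cases hs : y ∈ s.vars <;> by_cases ht : y ∈ t.vars
    · obtain ⟨r, hr1, hr2, hr3⟩ := h1 hs
      obtain ⟨r', hr1', hr2', hr3'⟩ := h2 ht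
      refine ⟨r + r', by simp [hr1], ?_, ?_⟩
      · intro n hn
        simp only [vars_add, List.mem_append] at hn ⊢
        exact hn.imp (hr2 n) (hr2' n)
      · intro A _ _ hA x z
        simp only [eval_add, hr3 A hA, hr3' A hA]
        rw [hA.add_assoc, hA.add_assoc, ← hA.add_assoc _ (t.eval x),
          hA.add_comm _ (t.eval x), hA.add_assoc]
    · obtain ⟨r, hr1, hr2, hr3⟩ := h1 hs
      refine ⟨r, hr1, fun n hn => by simp [hr2 n hn], ?_⟩
      intro A _ _ hA x z
      simp only [eval_add, hr3 A hA]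
      rw [eval_congr (e' := x) t (fun n hn => by
        rw [Function.update_of_ne]; rintro rfl; exact ht hn)]
      rw [hA.add_assoc, hA.add_comm _ (t.eval x), hA.add_assoc]
    · obtain ⟨r', hr1', hr2', hr3'⟩ := h2 ht
      refine ⟨r', hr1', fun n hn => by simp [hr2' n hn], ?_⟩
      intro A _ _ hA x z
      simp only [eval_add, hr3' A hA]
      rw [eval_congr (e' := x) s (fun n hn => by
        rw [Function.update_of_ne]; rintro rfl; exact hs hn)]
      rw [hA.add_assoc]
    · simp [hs, ht] at hy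
  | mul s t h1 h2 =>
    by_cases hs : y ∈ s.vars <;> by_cases ht : y ∈ t.vars
    · obtain ⟨r, hr1, hr2, hr3⟩ := h1 hs
      obtain ⟨r', hr1', hr2', hr3'⟩ := h2 ht
      refine ⟨s.eval (fun n => var (some n)) * r' + (r * t.eval (fun n => var (some n)) + r * r'),
        by simp [hr1], ?_, ?_⟩
      · intro n hn
        simp only [vars_add, vars_mul, List.mem_append, mem_vars_eval, vars_var,
          List.mem_singleton, Option.some.injEq] at hn ⊢
        rcases hn with (⟨m, hm, rfl⟩ | hn) | (hn | ⟨m, hm, rfl⟩) | hn | hn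
        · exact Or.inl hm
        · exact Or.inr (hr2' n hn)
        · exact Or.inl (hr2 n hn)
        · exact Or.inr hm
        · exact Or.inl (hr2 n hn)
        · exact Or.inr (hr2' n hn)
      · intro A _ _ hA x z
        simp only [eval_add, eval_mul, hr3 A hA, hr3' A hA, eval_eval, eval_var, oas_some]
        rw [hA.right_distrib, hA.left_distrib, hA.left_distrib, hA.add_assoc]
    · obtain ⟨r, hr1, hr2, hr3⟩ := h1 hs
      refine ⟨r * t.eval (fun n => var (some n)), by simp [hr1], ?_, ?_⟩
      · intro n hn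
        simp only [vars_mul, List.mem_append, mem_vars_eval, vars_var,
          List.mem_singleton, Option.some.injEq] at hn ⊢
        rcases hn with hn | ⟨m, hm, rfl⟩
        · exact Or.inl (hr2 n hn)
        · exact Or.inr hm
      · intro A _ _ hA x z
        simp only [eval_mul, hr3 A hA, eval_eval, eval_var, oas_some]
        rw [eval_congr (e' := x) t (fun n hn => by
          rw [Function.update_of_ne]; rintro rfl; exact ht hn)]
        rw [hA.right_distrib]
    · obtain ⟨r', hr1', hr2', hr3'⟩ := h2 ht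
      refine ⟨s.eval (fun n => var (some n)) * r', by simp [hr1'], ?_, ?_⟩
      · intro n hn
        simp only [vars_mul, List.mem_append, mem_vars_eval, vars_var,
          List.mem_singleton, Option.some.injEq] at hn ⊢
        rcases hn with ⟨m, hm, rfl⟩ | hn
        · exact Or.inl hm
        · exact Or.inr (hr2' n hn)
      · intro A _ _ hA x z
        simp only [eval_mul, hr3' A hA, eval_eval, eval_var, oas_some]
        rw [eval_congr (e' := x) s (fun n hn => by
          rw [Function.update_of_ne]; rintro rfl; exact hs hn)]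
        rw [hA.left_distrib]
    · simp [hs, ht] at hy

/-- the term `ρ` of an irregular identity -/
structure IsRho (p q : Tm ℕ) (ρ : Tm (Option ℕ)) : Prop where
  none_mem : none ∈ ρ.vars
  left : ∀ n, some n ∈ ρ.vars → n ∈ p.vars
  right : ∀ n, some n ∈ ρ.vars → n ∈ q.vars

lemma exists_rho_aux {S : Type u} [Add S] [Mul S] (hS : IsSemiring S) (p q : Tm ℕ)
    (h : Satisfies S (p, q)) (y : ℕ) (hy : y ∈ q.vars) (hy' : y ∉ p.vars) :
    ∃ ρ : Tm (Option ℕ), IsRho p q ρ ∧
      (∀ (x : ℕ → S) (z : S), p.eval x + ρ.eval (oas z x) = p.eval x) ∧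
      (∀ (x : ℕ → S) (z : S), q.eval x + ρ.eval (oas z x) = q.eval x) := by
  classical
  obtain ⟨r, hr1, hr2, hr3⟩ := expand.{u} q y hy
  obtain ⟨ρ, hρ⟩ : ∃ ρ, ρ = r.eval (fun o : Option ℕ => match o with
      | none => (var none : Tm (Option ℕ))
      | some n => if n ∈ p.vars then var (some n) else var none) := ⟨_, rfl⟩
  have h1 : ∀ (x : ℕ → S) (z : S), p.eval x + ρ.eval (oas z x) = p.eval x := by
    intro x z
    obtain ⟨x', hx'⟩ : ∃ x' : ℕ → S, x' = fun n => if n ∈ p.vars then x n else z := ⟨_, rfl⟩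
    have e1 : p.eval x = p.eval x' := eval_congr _ (fun n hn => by simp [hx', hn])
    have e2 : ρ.eval (oas z x) = r.eval (oas z x') := by
      rw [hρ, eval_eval]
      apply eval_congr
      rintro (_ | n) -
      · rfl
      · by_cases hn : n ∈ p.vars <;> simp [hx', hn]
    have e3 := hr3 S hS x' z
    have e4 : q.eval (Function.update x' y (x' y + z)) = p.eval x' := by
      rw [← h (Function.update x' y (x' y + z))]
      apply eval_congr
      intro n hn
      rw [Function.update_of_ne]
      rintro rfl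
      exact hy' hn
    have e5 : q.eval x' = p.eval x' := (h x').symm
    rw [e1, e2, ← e5, ← e3, e4, e5]
  refine ⟨ρ, ⟨?_, ?_, ?_⟩, h1, ?_⟩
  · rw [hρ, mem_vars_eval]
    exact ⟨none, hr1, by simp⟩
  · intro n hn
    rw [hρ, mem_vars_eval] at hn
    obtain ⟨_ | m, hm, hm'⟩ := hn
    · simp at hm'
    · by_cases h : m ∈ p.vars
      · simp only [h, if_true, vars_var, List.mem_singleton, Option.some.injEq] at hm'
        rw [hm']; exact h
      · simp [h] at hm'
  · intro n hn
    rw [hρ, mem_vars_eval] at hn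
    obtain ⟨_ | m, hm, hm'⟩ := hn
    · simp at hm'
    · by_cases h : m ∈ p.vars
      · simp only [h, if_true, vars_var, List.mem_singleton, Option.some.injEq] at hm'
        rw [hm']; exact hr2 m hm
      · simp [h] at hm'
  · intro x z
    rw [← show p.eval x = q.eval x from h x]
    exact h1 x z

lemma exists_rho {S : Type u} [Add S] [Mul S] (hS : IsSemiring S) (i : Idy)
    (h : Satisfies S i) (hr : ¬ Reg i) :
    ∃ ρ : Tm (Option ℕ), IsRho i.1 i.2 ρ ∧
      (∀ (x : ℕ → S) (z : S), i.1.eval x + ρ.eval (oas z x) = i.1.eval x) ∧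
      (∀ (x : ℕ → S) (z : S), i.2.eval x + ρ.eval (oas z x) = i.2.eval x) := by
  have hex : ∃ y, ¬ (y ∈ i.1.vars ↔ y ∈ i.2.vars) := by
    by_contra hcon
    push Not at hcon
    exact hr (fun y => hcon y)
  obtain ⟨y, hy⟩ := hex
  by_cases h1 : y ∈ i.1.vars
  · have h2 : y ∉ i.2.vars := fun h2 => hy ⟨fun _ => h2, fun _ => h1⟩
    obtain ⟨ρ, hρ, e1, e2⟩ := exists_rho_aux hS i.2 i.1 (fun e => (h e).symm) y h1 h2
    exact ⟨ρ, ⟨hρ.none_mem, hρ.right, hρ.left⟩, e2, e1⟩
  · have h2 : y ∈ i.2.vars := by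
      by_contra h2
      exact hy ⟨fun h => absurd h h1, fun h => absurd h h2⟩
    obtain ⟨ρ, hρ, e1, e2⟩ := exists_rho_aux hS i.1 i.2 h y h2 h1
    exact ⟨ρ, hρ, e1, e2⟩

/-! ### Contexts -/

/-- multiplicative contexts -/
inductive Cx (A : Type u) : Type u
  | id : Cx A
  | l : A → Cx A
  | r : A → Cx A
  | lr : A → A → Cx A

namespace Cx

variable {A : Type u} {B : Type v}

/-- application of a context -/
def app [Mul A] : Cx A → A → A
  | id, x => x
  | l a, x => a * x
  | r b, x => x * b
  | lr a b, x => a * x * b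

/-- image of a context under a map -/
def map (f : A → B) : Cx A → Cx B
  | id => id
  | l a => l (f a)
  | r b => r (f b)
  | lr a b => lr (f a) (f b)

/-- `x ↦ c (a x)` -/
def compl [Mul A] (a : A) : Cx A → Cx A
  | id => l a
  | l c => l (c * a)
  | r b => lr a b
  | lr c b => lr (c * a) b

/-- `x ↦ c (x a)` -/
def compr [Mul A] (a : A) : Cx A → Cx A
  | id => r a
  | l c => lr c a
  | r b => r (a * b)
  | lr c b => lr c (a * b)

lemma app_add [Add A] [Mul A] (hA : IsSemiring A) (c : Cx A) (x y : A) :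
    c.app (x + y) = c.app x + c.app y := by
  cases c <;> simp [app, hA.left_distrib, hA.right_distrib]

lemma app_compl [Add A] [Mul A] (hA : IsSemiring A) (c : Cx A) (a x : A) :
    (c.compl a).app x = c.app (a * x) := by
  cases c <;> simp [app, compl, hA.mul_assoc]

lemma app_compr [Add A] [Mul A] (hA : IsSemiring A) (c : Cx A) (a x : A) :
    (c.compr a).app x = c.app (x * a) := by
  cases c <;> simp [app, compr, hA.mul_assoc]

lemma eval_app {V : Type w} [Add A] [Mul A] (e : V → A) (c : Cx (Tm V)) (t : Tm V) :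
    (c.app t).eval e = (c.map (Tm.eval e)).app (t.eval e) := by
  cases c <;> simp [app, map]

/-- the variables of a context -/
def vars {V : Type w} : Cx (Tm V) → List V
  | id => []
  | l a => a.vars
  | r b => b.vars
  | lr a b => a.vars ++ b.vars

lemma vars_app {V : Type w} (c : Cx (Tm V)) (t : Tm V) (x : V) :
    x ∈ (c.app t).vars ↔ x ∈ c.vars ∨ x ∈ t.vars := by
  cases c
  · simp [app, vars]
  · simp [app, vars]
  · simp [app, vars, or_comm]
  · simp only [app, vars, vars_mul, List.mem_append]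
    tauto

end Cx

/-- sum with an optional summand -/
def oadd {A : Type u} [Add A] (x : A) : Option A → A
  | none => x
  | some y => x + y

/-! ### The semantic part of the argument -/

/-- The identities used for an irregular axiom, in the algebra `A`, one side. -/
structure Good {A : Type u} [Add A] [Mul A] (P : Tm ℕ) (ρ : Tm (Option ℕ)) : Prop where
  J : ∀ (c : Cx A) (x : ℕ → A) (τ : Option A),
    oadd (c.app (P.eval x)) τ + c.app (ρ.eval (oas (oadd (c.app (P.eval x)) τ) x)) =
      oadd (c.app (P.eval x)) τ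
  Ka : ∀ (x : ℕ → A) (z c : A), P.eval x + ρ.eval (oas (z + c) x) + ρ.eval (oas z x) =
    P.eval x + ρ.eval (oas (z + c) x)
  Kl : ∀ (x : ℕ → A) (z c : A), P.eval x + ρ.eval (oas (c * z) x) + ρ.eval (oas z x) =
    P.eval x + ρ.eval (oas (c * z) x)
  Kr : ∀ (x : ℕ → A) (z c : A), P.eval x + ρ.eval (oas (z * c) x) + ρ.eval (oas z x) =
    P.eval x + ρ.eval (oas (z * c) x)
  Ma : ∀ (x : ℕ → A) (z c : A),
    P.eval x + ρ.eval (oas z x) + ρ.eval (oas c x) + ρ.eval (oas (z + c) x) =
      P.eval x + ρ.eval (oas z x) + ρ.eval (oas c x)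
  Mm : ∀ (x : ℕ → A) (z c : A),
    P.eval x + ρ.eval (oas z x) + ρ.eval (oas c x) + ρ.eval (oas (z * c) x) =
      P.eval x + ρ.eval (oas z x) + ρ.eval (oas c x)

/-- the sum of the summands `ρ(x_v)` -/
def tags {A : Type u} [Add A] [Mul A] (ρ : Tm (Option ℕ)) (x : ℕ → A) (b : A) (l : List ℕ) : A :=
  l.foldl (fun acc v => acc + ρ.eval (oas (x v) x)) b

/-- the occurrence relation -/
inductive Occ {A : Type u} [Add A] [Mul A] (x : A) : A → Prop
  | refl : Occ x x
  | add_right (y c : A) : Occ x y → Occ x (y + c)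
  | mul_left (y c : A) : Occ x y → Occ x (c * y)
  | mul_right (y c : A) : Occ x y → Occ x (y * c)

section Sem

variable {A : Type u} [Add A] [Mul A] (hA : IsSemiring A)
include hA

lemma Occ.add_left {x y : A} (c : A) (h : Occ x y) : Occ x (c + y) := by
  rw [hA.add_comm]
  exact h.add_right _ _

omit hA in
lemma Occ.trans {x y z : A} (h : Occ x y) (h' : Occ y z) : Occ x z := by
  induction h' with
  | refl => exact h
  | add_right y c _ ih => exact ih.add_right _ _
  | mul_left y c _ ih => exact ih.mul_left _ _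
  | mul_right y c _ ih => exact ih.mul_right _ _

lemma Occ.eval {V : Type v} (e : V → A) (t : Tm V) (x : V) (hx : x ∈ t.vars) :
    Occ (e x) (t.eval e) := by
  induction t using Tm.ind with
  | var y => simp only [vars_var, List.mem_singleton] at hx; subst hx; exact Occ.refl
  | add s t h1 h2 =>
    simp only [vars_add, List.mem_append] at hx
    rcases hx with hx | hx
    · exact (h1 hx).add_right _ _
    · exact (h2 hx).add_left hA _
  | mul s t h1 h2 =>
    simp only [vars_mul, List.mem_append] at hx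
    rcases hx with hx | hx
    · exact (h1 hx).mul_right _ _
    · exact (h2 hx).mul_left _ _

omit hA in
lemma Occ.app {x y : A} (c : Cx A) (h : Occ x y) : Occ x (c.app y) := by
  cases c with
  | id => exact h
  | l a => exact h.mul_left _ _
  | r b => exact h.mul_right _ _
  | lr a b => exact (h.mul_left _ _).mul_right _ _

/-- the key absorption property -/
lemma absorb {P : Tm ℕ} {ρ : Tm (Option ℕ)} (hG : Good (A := A) P ρ) {V : Type v} (e : V → A)
    (c : Cx A) (x : ℕ → A) (τ : A) (hτ : ∀ v : V, Occ (e v) τ) (g : Tm V) :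
    c.app (P.eval x) + τ + c.app (ρ.eval (oas (g.eval e) x)) = c.app (P.eval x) + τ := by
  obtain ⟨t, ht⟩ : ∃ t, t = c.app (P.eval x) + τ := ⟨_, rfl⟩
  have key : ∀ r r' : A, P.eval x + r + r' = P.eval x + r → t + c.app r = t → t + c.app r' = t := by
    intro r r' h1 h2
    have h3 : c.app (P.eval x) + c.app r + c.app r' = c.app (P.eval x) + c.app r := by
      rw [← Cx.app_add hA, ← Cx.app_add hA, h1]
    have h4 : t + c.app r = c.app (P.eval x) + c.app r + τ := by
      rw [ht, hA.add_assoc, hA.add_comm τ, ← hA.add_assoc]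
    calc t + c.app r' = t + c.app r + c.app r' := by rw [h2]
      _ = c.app (P.eval x) + c.app r + c.app r' + τ := by
          rw [h4, hA.add_assoc, hA.add_comm τ, ← hA.add_assoc]
      _ = t := by rw [h3, ← h4, h2]
  have h0 : t + c.app (ρ.eval (oas t x)) = t := by
    have := hG.J c x (some τ)
    simpa [oadd, ← ht] using this
  have hdown : ∀ y z : A, Occ y z → t + c.app (ρ.eval (oas z x)) = t →
      t + c.app (ρ.eval (oas y x)) = t := by
    intro y z h
    induction h with
    | refl => exact _root_.id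
    | add_right w d _ ih => exact fun h => ih (key _ _ (hG.Ka x w d) h)
    | mul_left w d _ ih => exact fun h => ih (key _ _ (hG.Kl x w d) h)
    | mul_right w d _ ih => exact fun h => ih (key _ _ (hG.Kr x w d) h)
  have key2 : ∀ r s r' : A, P.eval x + r + s + r' = P.eval x + r + s → t + c.app r = t →
      t + c.app s = t → t + c.app r' = t := by
    intro r s r' h1 h2 h3
    refine key (r + s) r' ?_ ?_
    · rw [← hA.add_assoc, h1]
    · rw [Cx.app_add hA, ← hA.add_assoc, h2, h3]
  rw [← ht]
  induction g using Tm.ind with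
  | var v =>
    refine hdown _ _ ?_ h0
    rw [ht]
    exact (hτ v).add_left hA _
  | add g1 g2 h1 h2 => exact key2 _ _ _ (hG.Ma x _ _) h1 h2
  | mul g1 g2 h1 h2 => exact key2 _ _ _ (hG.Mm x _ _) h1 h2

lemma absorb_tags {P : Tm ℕ} {ρ : Tm (Option ℕ)} (hG : Good (A := A) P ρ) {V : Type v} (e : V → A)
    (c : Cx A) (σ : ℕ → Tm V) (τ : A) (hτ : ∀ v : V, Occ (e v) τ) (l : List ℕ) :
    c.app (tags ρ (fun n => (σ n).eval e) (P.eval (fun n => (σ n).eval e)) l) + τ =
      c.app (P.eval (fun n => (σ n).eval e)) + τ := by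
  obtain ⟨x, hx⟩ : ∃ x : ℕ → A, x = fun n => (σ n).eval e := ⟨_, rfl⟩
  rw [← hx]
  have gen : ∀ (l : List ℕ) (b : A), c.app b + τ = c.app (P.eval x) + τ →
      c.app (tags ρ x b l) + τ = c.app (P.eval x) + τ := by
    intro l
    induction l with
    | nil => intro b hb; exact hb
    | cons v l ih =>
      intro b hb
      refine ih _ ?_
      rw [Cx.app_add hA, hA.add_assoc, hA.add_comm _ τ, ← hA.add_assoc, hb, hx]
      exact absorb hA hG e c _ τ hτ (σ v)
  exact gen l _ rfl

end Sem

/-! ### Derivations -/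

/-- equational consequence -/
inductive Der (E : Set Idy) {V : Type v} : Tm V → Tm V → Prop
  | refl (s : Tm V) : Der E s s
  | symm {s t : Tm V} : Der E s t → Der E t s
  | trans {s t r : Tm V} : Der E s t → Der E t r → Der E s r
  | add {s s' t t' : Tm V} : Der E s s' → Der E t t' → Der E (s + t) (s' + t')
  | mul {s s' t t' : Tm V} : Der E s s' → Der E t t' → Der E (s * t) (s' * t')
  | ax (i : Idy) (hi : i ∈ E) (σ : ℕ → Tm V) : Der E (i.1.eval σ) (i.2.eval σ)

/-- completeness -/
lemma der_of_valid (E : Set Idy) {V : Type u} (s t : Tm ℕ)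
    (h : ∀ (A : Type u) [Add A] [Mul A], (∀ i ∈ E, Satisfies A i) → Satisfies A (s, t))
    (σ : ℕ → Tm V) : Der E (s.eval σ) (t.eval σ) := by
  let st : Setoid (Tm V) := ⟨Der E, ⟨Der.refl, Der.symm, Der.trans⟩⟩
  let _ : Add (Quotient st) := ⟨Quotient.map₂ (· + ·) (fun _ _ h1 _ _ h2 => Der.add h1 h2)⟩
  let _ : Mul (Quotient st) := ⟨Quotient.map₂ (· * ·) (fun _ _ h1 _ _ h2 => Der.mul h1 h2)⟩
  have hev : ∀ (r : Tm ℕ) (σ : ℕ → Tm V),
      r.eval (fun n => (Quotient.mk st (σ n))) = Quotient.mk st (r.eval σ) := by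
    intro r σ
    induction r using Tm.ind with
    | var x => rfl
    | add s t h1 h2 => rw [eval_add, h1, h2]; rfl
    | mul s t h1 h2 => rw [eval_mul, h1, h2]; rfl
  have hsat : ∀ i ∈ E, Satisfies (Quotient st) i := by
    intro i hi e
    obtain ⟨f, hf⟩ : ∃ f : ℕ → Tm V, (fun n => Quotient.mk st (f n)) = e :=
      ⟨fun n => (e n).out, funext fun n => (e n).out_eq⟩
    rw [← hf, hev, hev]
    exact Quotient.sound (Der.ax i hi f)
  have := h (Quotient st) hsat (fun n => Quotient.mk st (σ n))
  simp only [hev] at this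
  exact Quotient.exact this

/-- what is used of the axioms in an algebra `A` -/
def AxOK (A : Type u) [Add A] [Mul A] (i : Idy) : Prop :=
  (Reg i ∧ Satisfies A i) ∨ ∃ ρ : Tm (Option ℕ), none ∈ ρ.vars ∧
    Good (A := A) i.1 ρ ∧ Good (A := A) i.2 ρ ∧
    ∃ l : List ℕ, ∀ x : ℕ → A, tags ρ x (i.1.eval x) l = tags ρ x (i.2.eval x) l

section Main

variable {A : Type u} [Add A] [Mul A] (hA : IsSemiring A)
include hA

/-- Claim A: in the presence of a full summand all derivations are valid -/
lemma claimA {E : Set Idy} (hE : ∀ i ∈ E, AxOK A i) {V : Type v} (e : V → A) {s t : Tm V}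
    (h : Der E s t) : ∀ (c : Cx A) (τ : A), (∀ v : V, Occ (e v) τ) →
      c.app (s.eval e) + τ = c.app (t.eval e) + τ := by
  induction h with
  | refl s => intro c τ _; rfl
  | symm _ ih => intro c τ hτ; exact (ih c τ hτ).symm
  | trans _ _ ih1 ih2 => intro c τ hτ; exact (ih1 c τ hτ).trans (ih2 c τ hτ)
  | @add s s' t t' _ _ ih1 ih2 =>
    intro c τ hτ
    rw [eval_add, eval_add, Cx.app_add hA, Cx.app_add hA, hA.add_assoc,
      ih1 c (c.app (t.eval e) + τ) (fun v => (hτ v).add_left hA _),
      ← hA.add_assoc, hA.add_comm (c.app (s'.eval e)), hA.add_assoc,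
      ih2 c (c.app (s'.eval e) + τ) (fun v => (hτ v).add_left hA _),
      ← hA.add_assoc, hA.add_comm (c.app (t'.eval e))]
  | @mul s s' t t' _ _ ih1 ih2 =>
    intro c τ hτ
    rw [eval_mul, eval_mul, ← Cx.app_compr hA, ih1 _ τ hτ, Cx.app_compr hA, ← Cx.app_compl hA,
      ih2 _ τ hτ, Cx.app_compl hA]
  | ax i hi σ =>
    intro c τ hτ
    rw [eval_eval, eval_eval]
    rcases hE i hi with ⟨-, h⟩ | ⟨ρ, -, hG1, hG2, l, hl⟩
    · rw [h (fun n => (σ n).eval e)]
    · rw [← absorb_tags hA hG1 e c σ τ hτ l, ← absorb_tags hA hG2 e c σ τ hτ l, hl]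

/-- the property of a term of absorbing a summand in which all variables occur, in all contexts -/
def Tagged {V : Type v} (e : V → A) (s : Tm V) : Prop :=
  ∀ (c : Cx (Tm V)) (τ : Option (Tm V)), ∃ θ : A,
    (oadd (c.app s) τ).eval e + θ = (oadd (c.app s) τ).eval e ∧
    ∀ x ∈ (oadd (c.app s) τ).vars, Occ (e x) θ

omit hA in
lemma eval_oadd {V : Type v} (e : V → A) (s : Tm V) (τ : Option (Tm V)) :
    (oadd s τ).eval e = oadd (s.eval e) (τ.map (Tm.eval e)) := by
  cases τ <;> rfl

omit hA in
lemma Tagged.of_eq {V : Type v} (e : V → A) {s t : Tm V} (hs : Tagged e s)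
    (h1 : ∀ (c : Cx (Tm V)) (τ : Option (Tm V)), ∃ (c' : Cx (Tm V)) (τ' : Option (Tm V)),
      (oadd (c.app t) τ).eval e = (oadd (c'.app s) τ').eval e ∧
      ∀ x, x ∈ (oadd (c.app t) τ).vars → x ∈ (oadd (c'.app s) τ').vars) : Tagged e t := by
  intro c τ
  obtain ⟨c', τ', h2, h3⟩ := h1 c τ
  obtain ⟨θ, h4, h5⟩ := hs c' τ'
  exact ⟨θ, by rw [h2, h4], fun x hx => h5 x (h3 x hx)⟩

omit hA in
lemma mem_oadd {V : Type v} (s : Tm V) (τ : Option (Tm V)) (x : V) :
    x ∈ (oadd s τ).vars ↔ x ∈ s.vars ∨ ∃ t ∈ τ, x ∈ t.vars := by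
  cases τ <;> simp [oadd]

omit hA in
lemma Tagged.congr {V : Type v} (e : V → A) {s t : Tm V} (hs : Tagged e s)
    (h : t.eval e = s.eval e) (hv : ∀ x, x ∈ t.vars ↔ x ∈ s.vars) : Tagged e t := by
  refine hs.of_eq e (fun c τ => ⟨c, τ, ?_, ?_⟩)
  · rw [eval_oadd, eval_oadd, Cx.eval_app, Cx.eval_app, h]
  · intro x
    rw [mem_oadd, mem_oadd, Cx.vars_app, Cx.vars_app, hv]
    exact _root_.id

lemma Tagged.add {V : Type v} (e : V → A) {s : Tm V} (t : Tm V) (hs : Tagged e s) :
    Tagged e (s + t) := by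
  refine hs.of_eq e (fun c τ => ⟨c, some (oadd (c.app t) τ), ?_, ?_⟩)
  · cases τ with
    | none =>
      simp only [oadd, eval_add, Cx.eval_app, Cx.app_add hA]
    | some τ =>
      simp only [oadd, eval_add, Cx.eval_app, Cx.app_add hA, hA.add_assoc]
  · intro x
    cases τ with
    | none =>
      simp only [oadd, Cx.vars_app, vars_add, List.mem_append]
      tauto
    | some τ =>
      simp only [oadd, Cx.vars_app, vars_add, List.mem_append]
      tauto

lemma Tagged.add' {V : Type v} (e : V → A) {s : Tm V} (t : Tm V) (hs : Tagged e s) :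
    Tagged e (t + s) := by
  refine (hs.add hA e t).congr e ?_ ?_
  · rw [eval_add, eval_add, hA.add_comm]
  · intro x
    simp [or_comm]

lemma Tagged.mul {V : Type v} (e : V → A) {s : Tm V} (t : Tm V) (hs : Tagged e s) :
    Tagged e (s * t) := by
  refine hs.of_eq e (fun c τ => ⟨c.compr t, τ, ?_, ?_⟩)
  · have : ((c.compr t).app s).eval e = (c.app (s * t)).eval e := by
      cases c <;> simp [Cx.compr, Cx.app, hA.mul_assoc]
    rw [eval_oadd, eval_oadd, this]
  · intro x
    rw [mem_oadd, mem_oadd, Cx.vars_app, Cx.vars_app]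
    cases c <;> simp only [Cx.compr, Cx.vars, vars_mul, List.mem_append, List.not_mem_nil] <;> tauto

lemma Tagged.mul' {V : Type v} (e : V → A) {s : Tm V} (t : Tm V) (hs : Tagged e s) :
    Tagged e (t * s) := by
  refine hs.of_eq e (fun c τ => ⟨c.compl t, τ, ?_, ?_⟩)
  · have : ((c.compl t).app s).eval e = (c.app (t * s)).eval e := by
      cases c <;> simp [Cx.compl, Cx.app, hA.mul_assoc]
    rw [eval_oadd, eval_oadd, this]
  · intro x
    rw [mem_oadd, mem_oadd, Cx.vars_app, Cx.vars_app]
    cases c <;> simp only [Cx.compl, Cx.vars, vars_mul, List.mem_append, List.not_mem_nil] <;> tauto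

lemma Tagged.of_good {V : Type v} (e : V → A) {P : Tm ℕ} {ρ : Tm (Option ℕ)}
    (hG : Good (A := A) P ρ) (hρ : none ∈ ρ.vars) (σ : ℕ → Tm V) : Tagged e (P.eval σ) := by
  intro c τ
  obtain ⟨x, hx⟩ : ∃ x : ℕ → A, x = fun n => (σ n).eval e := ⟨_, rfl⟩
  have h1 : (oadd (c.app (P.eval σ)) τ).eval e =
      oadd ((c.map (Tm.eval e)).app (P.eval x)) (τ.map (Tm.eval e)) := by
    rw [eval_oadd, Cx.eval_app, eval_eval, hx]
  refine ⟨(c.map (Tm.eval e)).app (ρ.eval (oas ((oadd (c.app (P.eval σ)) τ).eval e) x)), ?_, ?_⟩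
  · rw [h1]
    exact hG.J _ _ _
  · intro y hy
    refine Occ.app _ ?_
    refine (Occ.eval hA e _ y hy).trans ?_
    exact Occ.eval hA (oas ((oadd (c.app (P.eval σ)) τ).eval e) x) ρ none hρ

/-- Claim B -/
lemma claimB {E : Set Idy} (hE : ∀ i ∈ E, AxOK A i) {V : Type v} (e : V → A) {s t : Tm V}
    (h : Der E s t) : ((∀ x, x ∈ s.vars ↔ x ∈ t.vars) ∧ s.eval e = t.eval e) ∨
      (Tagged e s ∧ Tagged e t) := by
  induction h with
  | refl s => exact Or.inl ⟨fun _ => Iff.rfl, rfl⟩
  | symm _ ih =>
    rcases ih with ⟨h1, h2⟩ | ⟨h1, h2⟩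
    · exact Or.inl ⟨fun x => (h1 x).symm, h2.symm⟩
    · exact Or.inr ⟨h2, h1⟩
  | trans _ _ ih1 ih2 =>
    rcases ih1 with ⟨h1, h2⟩ | ⟨h1, h2⟩ <;> rcases ih2 with ⟨h3, h4⟩ | ⟨h3, h4⟩
    · exact Or.inl ⟨fun x => (h1 x).trans (h3 x), h2.trans h4⟩
    · exact Or.inr ⟨h3.congr e h2 h1, h4⟩
    · exact Or.inr ⟨h1, h2.congr e h4.symm (fun x => (h3 x).symm)⟩
    · exact Or.inr ⟨h1, h4⟩
  | @add s s' t t' _ _ ih1 ih2 =>
    rcases ih1 with ⟨h1, h2⟩ | ⟨h1, h2⟩
    · rcases ih2 with ⟨h3, h4⟩ | ⟨h3, h4⟩
      · exact Or.inl ⟨fun x => by simp [h1, h3], by simp [h2, h4]⟩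
      · exact Or.inr ⟨h3.add' hA e _, h4.add' hA e _⟩
    · exact Or.inr ⟨h1.add hA e _, h2.add hA e _⟩
  | @mul s s' t t' _ _ ih1 ih2 =>
    rcases ih1 with ⟨h1, h2⟩ | ⟨h1, h2⟩
    · rcases ih2 with ⟨h3, h4⟩ | ⟨h3, h4⟩
      · exact Or.inl ⟨fun x => by simp [h1, h3], by simp [h2, h4]⟩
      · exact Or.inr ⟨h3.mul' hA e _, h4.mul' hA e _⟩
    · exact Or.inr ⟨h1.mul hA e _, h2.mul hA e _⟩
  | ax i hi σ =>
    rcases hE i hi with ⟨hr, h⟩ | ⟨ρ, hρ, hG1, hG2, -⟩
    · left
      refine ⟨fun x => ?_, ?_⟩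
      · rw [mem_vars_eval, mem_vars_eval]
        exact exists_congr fun y => and_congr_left fun _ => hr y
      · rw [eval_eval, eval_eval]
        exact h _
    · exact Or.inr ⟨Tagged.of_good hA e hG1 hρ σ, Tagged.of_good hA e hG2 hρ σ⟩

/-- the conclusion for derivations between terms in which all variables occur -/
lemma claim_full {E : Set Idy} (hE : ∀ i ∈ E, AxOK A i) {V : Type v} (e : V → A) {s t : Tm V}
    (h : Der E s t) (hs : ∀ x, x ∈ s.vars) (ht : ∀ x, x ∈ t.vars) : s.eval e = t.eval e := by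
  rcases claimB hA hE e h with ⟨-, h1⟩ | ⟨h1, h2⟩
  · exact h1
  · obtain ⟨τ1, e1, o1⟩ := h1 Cx.id none
    obtain ⟨τ2, e2, o2⟩ := h2 Cx.id none
    simp only [oadd, Cx.app] at e1 e2 o1 o2
    have f1 : ∀ v : V, Occ (e v) τ1 := fun v => o1 v (hs v)
    have f2 : ∀ v : V, Occ (e v) τ2 := fun v => o2 v (ht v)
    have a1 := claimA hA hE e h Cx.id τ1 f1
    have a2 := claimA hA hE e h Cx.id (τ2 + τ1) (fun v => (f2 v).add_right _ _)
    simp only [Cx.app] at a1 a2
    calc s.eval e = t.eval e + τ1 := by rw [← a1, e1]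
      _ = t.eval e + (τ2 + τ1) := by rw [← hA.add_assoc, e2]
      _ = s.eval e + τ2 := by rw [← a2, hA.add_comm τ2, ← hA.add_assoc, e1]
      _ = t.eval e := by
        have a3 := claimA hA hE e h Cx.id τ2 f2
        simp only [Cx.app] at a3
        rw [a3, e2]

end Main

/-! ### The finite set of regular identities -/

/-- the variables of the axioms are shifted by `5` -/
def up (P : Tm ℕ) : Tm ℕ := P.eval (fun n => var (n + 5))

/-- the term `ρ(g)`, with shifted variables -/
def rh (ρ : Tm (Option ℕ)) (g : Tm ℕ) : Tm ℕ := ρ.eval (oas g (fun n => var (n + 5)))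

/-- the four contexts -/
def cxs : List (Cx (Tm ℕ)) := [Cx.id, Cx.l (var 2), Cx.r (var 3), Cx.lr (var 2) (var 3)]

/-- the identities for one side of an irregular axiom -/
def fam (P : Tm ℕ) (ρ : Tm (Option ℕ)) : List Idy :=
  cxs.map (fun c => (c.app (up P) + c.app (rh ρ (c.app (up P))), c.app (up P))) ++
  cxs.map (fun c => (c.app (up P) + var 4 + c.app (rh ρ (c.app (up P) + var 4)),
    c.app (up P) + var 4)) ++
  [(up P + rh ρ (var 0 + var 1) + rh ρ (var 0), up P + rh ρ (var 0 + var 1)),
   (up P + rh ρ (var 1 * var 0) + rh ρ (var 0), up P + rh ρ (var 1 * var 0)),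
   (up P + rh ρ (var 0 * var 1) + rh ρ (var 0), up P + rh ρ (var 0 * var 1)),
   (up P + rh ρ (var 0) + rh ρ (var 1) + rh ρ (var 0 + var 1), up P + rh ρ (var 0) + rh ρ (var 1)),
   (up P + rh ρ (var 0) + rh ρ (var 1) + rh ρ (var 0 * var 1), up P + rh ρ (var 0) + rh ρ (var 1))]

/-- the swap identity -/
def sw (p q : Tm ℕ) (ρ : Tm (Option ℕ)) : Idy :=
  ((p.vars ++ q.vars).foldl (fun acc v => acc + rh ρ (var (v + 5))) (up p),
   (p.vars ++ q.vars).foldl (fun acc v => acc + rh ρ (var (v + 5))) (up q))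

/-- the assignment used to read off the identities -/
def asg {A : Type u} (z c a b τ : A) (x : ℕ → A) : ℕ → A
  | 0 => z
  | 1 => c
  | 2 => a
  | 3 => b
  | 4 => τ
  | n + 5 => x n

section Read

variable {A : Type u} [Add A] [Mul A]

lemma eval_up (e : ℕ → A) (P : Tm ℕ) : (up P).eval e = P.eval (fun n => e (n + 5)) := by
  rw [up, eval_eval]
  rfl

lemma eval_rh (e : ℕ → A) (ρ : Tm (Option ℕ)) (g : Tm ℕ) :
    (rh ρ g).eval e = ρ.eval (oas (g.eval e) (fun n => e (n + 5))) := by
  rw [rh, eval_eval]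
  apply eval_congr
  rintro (_ | n) - <;> rfl

lemma eval_foldl (e : ℕ → A) (ρ : Tm (Option ℕ)) (l : List ℕ) : ∀ b : Tm ℕ,
    (l.foldl (fun acc v => acc + rh ρ (var (v + 5))) b).eval e =
      tags ρ (fun n => e (n + 5)) (b.eval e) l := by
  induction l with
  | nil => intro b; rfl
  | cons v l ih =>
    intro b
    rw [List.foldl_cons, ih]
    simp only [tags, List.foldl_cons, eval_add, eval_rh, eval_var]

lemma good_of_fam {P : Tm ℕ} {ρ : Tm (Option ℕ)} (h : ∀ i ∈ fam P ρ, Satisfies A i) :
    Good (A := A) P ρ := by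
  have h' := h
  simp only [fam, cxs, List.map_cons, List.map_nil, List.cons_append, List.nil_append,
    List.mem_cons, List.not_mem_nil, or_false, forall_eq_or_imp, forall_eq] at h'
  obtain ⟨j1, j2, j3, j4, j5, j6, j7, j8, k1, k2, k3, k4, k5⟩ := h'
  refine ⟨?_, ?_, ?_, ?_, ?_, ?_⟩
  · intro c x τ
    have hu : ∀ z c a b τ : A, (up P).eval (asg z c a b τ x) = P.eval x := fun z c a b τ => by
      rw [eval_up]; rfl
    have hr : ∀ (g : Tm ℕ) (z c a b τ : A), (rh ρ g).eval (asg z c a b τ x) =
        ρ.eval (oas (g.eval (asg z c a b τ x)) x) := fun g z c a b τ => by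
      rw [eval_rh]; rfl
    cases τ with
    | none =>
      have y := P.eval x
      cases c with
      | id => have := j1 (asg y y y y y x)
              simpa [Cx.app, oadd, hu, hr, asg] using this
      | l a => have := j2 (asg y y a y y x)
               simpa [Cx.app, oadd, hu, hr, asg] using this
      | r b => have := j3 (asg y y y b y x)
               simpa [Cx.app, oadd, hu, hr, asg] using this
      | lr a b => have := j4 (asg y y a b y x)
                  simpa [Cx.app, oadd, hu, hr, asg] using this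
    | some τ =>
      have y := P.eval x
      cases c with
      | id => have := j5 (asg y y y y τ x)
              simpa [Cx.app, oadd, hu, hr, asg] using this
      | l a => have := j6 (asg y y a y τ x)
               simpa [Cx.app, oadd, hu, hr, asg] using this
      | r b => have := j7 (asg y y y b τ x)
               simpa [Cx.app, oadd, hu, hr, asg] using this
      | lr a b => have := j8 (asg y y a b τ x)
                  simpa [Cx.app, oadd, hu, hr, asg] using this
  · intro x z c
    have := k1 (asg z c z z z x)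
    simpa [eval_up, eval_rh, asg] using this
  · intro x z c
    have := k2 (asg z c z z z x)
    simpa [eval_up, eval_rh, asg] using this
  · intro x z c
    have := k3 (asg z c z z z x)
    simpa [eval_up, eval_rh, asg] using this
  · intro x z c
    have := k4 (asg z c z z z x)
    simpa [eval_up, eval_rh, asg] using this
  · intro x z c
    have := k5 (asg z c z z z x)
    simpa [eval_up, eval_rh, asg] using this

lemma tags_of_sw {p q : Tm ℕ} {ρ : Tm (Option ℕ)} (h : Satisfies A (sw p q ρ)) (x : ℕ → A) :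
    tags ρ x (p.eval x) (p.vars ++ q.vars) = tags ρ x (q.eval x) (p.vars ++ q.vars) := by
  have y := p.eval x
  have := h (asg y y y y y x)
  simp only [sw, eval_foldl, eval_up] at this
  exact this

end Read

/-! ### These identities are regular and hold in `S` -/

lemma mem_up (P : Tm ℕ) (n : ℕ) : n ∈ (up P).vars ↔ ∃ m ∈ P.vars, n = m + 5 := by
  rw [up, mem_vars_eval]
  simp

lemma mem_rh {ρ : Tm (Option ℕ)} (hρ : none ∈ ρ.vars) (g : Tm ℕ) (n : ℕ) :
    n ∈ (rh ρ g).vars ↔ n ∈ g.vars ∨ ∃ m, some m ∈ ρ.vars ∧ n = m + 5 := by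
  rw [rh, mem_vars_eval]
  constructor
  · rintro ⟨_ | m, hm, hn⟩
    · exact Or.inl hn
    · right
      exact ⟨m, hm, by simpa using hn⟩
  · rintro (h | ⟨m, hm, rfl⟩)
    · exact ⟨none, hρ, h⟩
    · exact ⟨some m, hm, by simp⟩

lemma reg_fam {P : Tm ℕ} {ρ : Tm (Option ℕ)} (hρ : none ∈ ρ.vars)
    (h : ∀ n, some n ∈ ρ.vars → n ∈ P.vars) : ∀ i ∈ fam P ρ, Reg i := by
  have hsub : ∀ n, (∃ m, some m ∈ ρ.vars ∧ n = m + 5) → n ∈ (up P).vars := by
    rintro n ⟨m, hm, rfl⟩
    rw [mem_up]
    exact ⟨m, h m hm, rfl⟩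
  intro i hi x
  have hx := hsub x
  simp only [fam, List.mem_append, List.mem_map, List.mem_cons, List.not_mem_nil, or_false] at hi
  rcases hi with (⟨c, -, rfl⟩ | ⟨c, -, rfl⟩) | rfl | rfl | rfl | rfl | rfl
  · simp only [vars_add, List.mem_append, Cx.vars_app, mem_rh hρ]
    generalize (∃ m, some m ∈ ρ.vars ∧ x = m + 5) = R at hx ⊢
    tauto
  · simp only [vars_add, List.mem_append, Cx.vars_app, mem_rh hρ]
    generalize (∃ m, some m ∈ ρ.vars ∧ x = m + 5) = R at hx ⊢
    tauto
  · simp only [vars_add, vars_mul, List.mem_append, mem_rh hρ]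
    tauto
  · simp only [vars_add, vars_mul, List.mem_append, mem_rh hρ]
    tauto
  · simp only [vars_add, vars_mul, List.mem_append, mem_rh hρ]
    tauto
  · simp only [vars_add, vars_mul, List.mem_append, mem_rh hρ]
    tauto
  · simp only [vars_add, vars_mul, List.mem_append, mem_rh hρ]
    tauto

lemma mem_foldl {ρ : Tm (Option ℕ)} (hρ : none ∈ ρ.vars) (l : List ℕ) (x : ℕ) : ∀ b : Tm ℕ,
    x ∈ (l.foldl (fun acc v => acc + rh ρ (var (v + 5))) b).vars ↔
      x ∈ b.vars ∨ ∃ v ∈ l, x = v + 5 ∨ ∃ m, some m ∈ ρ.vars ∧ x = m + 5 := by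
  induction l with
  | nil => intro b; simp
  | cons v l ih =>
    intro b
    rw [List.foldl_cons, ih]
    simp only [vars_add, List.mem_append, mem_rh hρ, vars_var,
      List.mem_cons, List.not_mem_nil, or_false, exists_eq_or_imp]
    generalize (∃ m, some m ∈ ρ.vars ∧ x = m + 5) = R
    tauto

lemma reg_sw {p q : Tm ℕ} {ρ : Tm (Option ℕ)} (hρ : none ∈ ρ.vars) : Reg (sw p q ρ) := by
  intro x
  simp only [sw, mem_foldl hρ, mem_up]
  constructor
  · rintro (⟨m, hm, rfl⟩ | h)
    · exact Or.inr ⟨m, by simp [hm], Or.inl rfl⟩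
    · exact Or.inr h
  · rintro (⟨m, hm, rfl⟩ | h)
    · exact Or.inr ⟨m, by simp [hm], Or.inl rfl⟩
    · exact Or.inr h

section Valid

variable {S : Type u} [Add S] [Mul S] (hS : IsSemiring S)
include hS

lemma valid_fam {P : Tm ℕ} {ρ : Tm (Option ℕ)}
    (h : ∀ (x : ℕ → S) (z : S), P.eval x + ρ.eval (oas z x) = P.eval x) :
    ∀ i ∈ fam P ρ, Satisfies S i := by
  intro i hi e
  simp only [fam, List.mem_append, List.mem_map, List.mem_cons, List.not_mem_nil, or_false] at hi
  rcases hi with (⟨c, -, rfl⟩ | ⟨c, -, rfl⟩) | rfl | rfl | rfl | rfl | rfl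
  · simp only [eval_add, Cx.eval_app, eval_up, eval_rh]
    rw [← Cx.app_add hS, h]
  · simp only [eval_add, Cx.eval_app, eval_up, eval_rh]
    rw [hS.add_assoc, hS.add_comm (Tm.eval e (var 4)), ← hS.add_assoc, ← Cx.app_add hS, h]
  · simp only [eval_add, eval_up, eval_rh, h]
  · simp only [eval_add, eval_up, eval_rh, h]
  · simp only [eval_add, eval_up, eval_rh, h]
  · simp only [eval_add, eval_up, eval_rh, h]
  · simp only [eval_add, eval_up, eval_rh, h]

omit hS in
lemma valid_sw {p q : Tm ℕ} {ρ : Tm (Option ℕ)} (hpq : Satisfies S (p, q))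
    (h1 : ∀ (x : ℕ → S) (z : S), p.eval x + ρ.eval (oas z x) = p.eval x)
    (h2 : ∀ (x : ℕ → S) (z : S), q.eval x + ρ.eval (oas z x) = q.eval x) :
    Satisfies S (sw p q ρ) := by
  intro e
  simp only [sw, eval_foldl, eval_up]
  have key : ∀ (P : Tm ℕ) (x : ℕ → S), (∀ z : S, P.eval x + ρ.eval (oas z x) = P.eval x) →
      ∀ l : List ℕ, tags ρ x (P.eval x) l = P.eval x := by
    intro P x h l
    induction l with
    | nil => rfl
    | cons v l ih =>
      simp only [tags, List.foldl_cons] at ih ⊢
      rw [h, ih]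
  rw [key p _ (h1 _), key q _ (h2 _)]
  exact hpq _

end Valid

/-- the semiring axioms as identities -/
def sax : List Idy :=
  [(var 0 + var 1 + var 2, var 0 + (var 1 + var 2)), (var 0 + var 1, var 1 + var 0),
   (var 0 * var 1 * var 2, var 0 * (var 1 * var 2)),
   (var 0 * (var 1 + var 2), var 0 * var 1 + var 0 * var 2),
   ((var 0 + var 1) * var 2, var 0 * var 2 + var 1 * var 2)]

lemma reg_sax : ∀ i ∈ sax, Reg i := by
  intro i hi x
  simp only [sax, List.mem_cons, List.not_mem_nil, or_false] at hi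
  rcases hi with rfl | rfl | rfl | rfl | rfl <;>
    simp only [vars_add, vars_mul, vars_var, List.mem_append, List.mem_singleton] <;> tauto

lemma valid_sax {S : Type u} [Add S] [Mul S] (hS : IsSemiring S) : ∀ i ∈ sax, Satisfies S i := by
  intro i hi e
  simp only [sax, List.mem_cons, List.not_mem_nil, or_false] at hi
  rcases hi with rfl | rfl | rfl | rfl | rfl
  · exact hS.add_assoc _ _ _
  · exact hS.add_comm _ _
  · exact hS.mul_assoc _ _ _
  · exact hS.left_distrib _ _ _
  · exact hS.right_distrib _ _ _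

lemma semiring_of_sax {A : Type u} [Add A] [Mul A] (h : ∀ i ∈ sax, Satisfies A i) :
    IsSemiring A := by
  simp only [sax, List.mem_cons, List.not_mem_nil, or_false, forall_eq_or_imp, forall_eq] at h
  obtain ⟨h1, h2, h3, h4, h5⟩ := h
  refine ⟨fun a b c => ?_, fun a b => ?_, fun a b c => ?_, fun a b c => ?_, fun a b c => ?_⟩
  · exact h1 (fun n => match n with | 0 => a | 1 => b | _ => c)
  · exact h2 (fun n => match n with | 0 => a | _ => b)
  · exact h3 (fun n => match n with | 0 => a | 1 => b | _ => c)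
  · exact h4 (fun n => match n with | 0 => a | 1 => b | _ => c)
  · exact h5 (fun n => match n with | 0 => a | 1 => b | _ => c)

/-- The case of a nonempty semiring. -/
theorem main (S : Type u) [Nonempty S] [Add S] [Mul S] (hS : IsSemiring S)
    (h : FinitelyBased S) : FinitelyBased (WithAbsorbing S) := by
  classical
  obtain ⟨E, hEfin, hE⟩ := h
  have hES : ∀ i ∈ E, Satisfies S i := (hE S).2 (fun _ h => h)
  -- choice of the terms `ρ`
  have hρ : ∀ i : Idy, ∃ ρ : Tm (Option ℕ), i ∈ E → ¬ Reg i → IsRho i.1 i.2 ρ ∧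
      (∀ (x : ℕ → S) (z : S), i.1.eval x + ρ.eval (oas z x) = i.1.eval x) ∧
      (∀ (x : ℕ → S) (z : S), i.2.eval x + ρ.eval (oas z x) = i.2.eval x) := by
    intro i
    by_cases hi : i ∈ E ∧ ¬ Reg i
    · obtain ⟨ρ, hρ⟩ := exists_rho hS i (hES i hi.1) hi.2
      exact ⟨ρ, fun _ _ => hρ⟩
    · exact ⟨var none, fun h1 h2 => absurd ⟨h1, h2⟩ hi⟩
  choose ρ hρ using hρ
  obtain ⟨G, hG⟩ : ∃ G : Idy → Set Idy, G = fun i =>
    if Reg i then {i} else {j | j ∈ fam i.1 (ρ i) ++ fam i.2 (ρ i) ++ [sw i.1 i.2 (ρ i)]} :=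
      ⟨_, rfl⟩
  have hGfin : ∀ i, (G i).Finite := by
    intro i
    rw [hG]
    by_cases hi : Reg i
    · simp [hi]
    · simp only [hi, if_false]
      exact List.finite_toSet _
  have hGreg : ∀ i ∈ E, ∀ j ∈ G i, Reg j ∧ Satisfies S j := by
    intro i hi j hj
    rw [hG] at hj
    by_cases hr : Reg i
    · simp only [hr, if_true, Set.mem_singleton_iff] at hj
      subst hj
      exact ⟨hr, hES j hi⟩
    · simp only [hr, if_false, Set.mem_setOf_eq, List.mem_append, List.mem_singleton] at hj
      obtain ⟨r1, r2, r3⟩ := hρ i hi hr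
      rcases hj with (hj | hj) | rfl
      · exact ⟨reg_fam r1.none_mem r1.left j hj, valid_fam hS r2 j hj⟩
      · exact ⟨reg_fam r1.none_mem r1.right j hj, valid_fam hS r3 j hj⟩
      · exact ⟨reg_sw r1.none_mem, valid_sw (hES i hi) r2 r3⟩
  refine ⟨{i | i ∈ sax} ∪ ⋃ i ∈ E, G i, ?_, ?_⟩
  · exact (List.finite_toSet _).union (hEfin.biUnion fun i _ => hGfin i)
  intro A _ _
  constructor
  · intro hA
    have hA1 : IsSemiring A := semiring_of_sax (fun i hi => hA i (Or.inl hi))
    have hAx : ∀ i ∈ E, AxOK A i := by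
      intro i hi
      have hAi : ∀ j ∈ G i, Satisfies A j := by
        intro j hj
        refine hA j (Or.inr ?_)
        simp only [Set.mem_iUnion]
        exact ⟨i, hi, hj⟩
      by_cases hr : Reg i
      · exact Or.inl ⟨hr, hAi i (by rw [hG]; simp [hr])⟩
      · right
        rw [hG] at hAi
        simp only [hr, if_false, Set.mem_setOf_eq, List.mem_append, List.mem_singleton] at hAi
        refine ⟨ρ i, (hρ i hi hr).1.none_mem, good_of_fam (fun j hj => hAi j (Or.inl (Or.inl hj))),
          good_of_fam (fun j hj => hAi j (Or.inl (Or.inr hj))), i.1.vars ++ i.2.vars, ?_⟩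
        exact tags_of_sw (hAi _ (Or.inr rfl))
    intro i hi e
    have hreg : Reg i := reg_of_inf hi
    have hSi : Satisfies S i := satisfies_of_inf hi
    obtain ⟨x0, hx0⟩ := i.1.vars_ne_nil
    obtain ⟨V, hV⟩ : ∃ V : Type u, V = ULift.{u} {n : ℕ // n ∈ i.1.vars} := ⟨_, rfl⟩
    subst hV
    let r : ℕ → ULift.{u} {n : ℕ // n ∈ i.1.vars} := fun n =>
      if h : n ∈ i.1.vars then ⟨⟨n, h⟩⟩ else ⟨⟨x0, hx0⟩⟩
    have hr : ∀ n (h : n ∈ i.1.vars), r n = ⟨⟨n, h⟩⟩ := fun n h => by simp [r, h]
    have hder : Der E (i.1.eval (fun n => var (r n))) (i.2.eval (fun n => var (r n))) := by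
      refine der_of_valid E i.1 i.2 ?_ _
      intro B _ _ hB
      exact (hE B).1 hB i hSi
    have hfull : ∀ t : Tm ℕ, (∀ n, n ∈ i.1.vars → n ∈ t.vars) →
        ∀ v, v ∈ (t.eval (fun n => var (r n))).vars := by
      rintro t ht ⟨⟨n, hn⟩⟩
      rw [mem_vars_eval]
      exact ⟨n, ht n hn, by simp [hr n hn]⟩
    have h1 := claim_full hA1 hAx (fun v => e v.down.1) hder (hfull _ (fun _ h => h))
      (hfull _ (fun n h => (hreg n).1 h))
    rw [eval_eval, eval_eval] at h1
    simp only [eval_var] at h1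
    have h2 : ∀ t : Tm ℕ, (∀ n ∈ t.vars, n ∈ i.1.vars) →
        t.eval (fun n => e (r n).down.1) = t.eval e := by
      intro t ht
      apply eval_congr
      intro n hn
      rw [hr n (ht n hn)]
    rwa [h2 _ (fun _ h => h), h2 _ (fun n h => (hreg n).2 h)] at h1
  · intro hA i hi
    apply hA
    rcases hi with hi | hi
    · exact satisfies_inf_of_reg (reg_sax i hi) (valid_sax hS i hi)
    · simp only [Set.mem_iUnion] at hi
      obtain ⟨j, hj, hij⟩ := hi
      obtain ⟨h1, h2⟩ := hGreg j hj i hij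
      exact satisfies_inf_of_reg h1 h2

/-- For every semiring `S`: if `S` is finitely based, then `S^∞` is finitely based. -/
theorem result (S : Type u) [Add S] [Mul S] (hS : IsSemiring S) (h : FinitelyBased S) :
    FinitelyBased (WithAbsorbing S) := by
  rcases isEmpty_or_nonempty S with hS' | hS'
  · refine ⟨{(var 0, var 1)}, Set.finite_singleton _, fun A _ _ => ⟨fun hA i _ e => ?_, fun hA => ?_⟩⟩
    · have hsub : ∀ a b : A, a = b := by
        intro a b
        have := hA (var 0, var 1) rfl (fun n => if n = 0 then a else b)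
        simpa using this
      exact hsub _ _
    · intro i hi
      apply hA
      intro e
      have : ∀ a b : WithAbsorbing S, a = b := by
        rintro (a | _) (b | _)
        · exact hS'.elim a
        · exact hS'.elim a
        · exact hS'.elim b
        · rfl
      exact this _ _
  · exact main S hS h

end Pool.Agent.Results.MP_cd9307_al.AbsorbingElement
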